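import Mathlib

set_option autoImplicit false

namespace Pool.Agent.Results.MP_caf75b_al.NoTower

open Subgroup Quandles
open scoped commutatorElement

/-- The inner automorphism group. -/
def Inn (X : Type) [Quandle X] : Subgroup (Equiv.Perm X) := closure (Set.range Rack.act')

section
variable {G : Type} [Group G]

lemma lc {f : G} (hf : commutator G ⊔ zpowers f = ⊤) (L : Subgroup G) [L.Normal]
    (h1 : ∀ d ∈ commutator G, ⁅d, f⁆ ∈ L) (h2 : ⁅commutator G, commutator G⁆ ≤ L) :
    commutator G ≤ L := by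
  let π := QuotientGroup.mk' L
  have k : ∀ a b, ⁅a, b⁆ ∈ L ↔ Commute (π a) (π b) := fun a b => by
    rw [← commutatorElement_eq_one_iff_commute, ← map_commutatorElement]
    exact (QuotientGroup.eq_one_iff _).symm
  have t : ∀ a, (∀ d ∈ commutator G, Commute (π a) (π d)) → Commute (π a) (π f) →
      ∀ b, Commute (π a) (π b) := fun a u v b => by
    have : commutator G ⊔ zpowers f ≤ (centralizer {π a}).comap π :=
      sup_le (fun d hd => mem_centralizer_singleton_iff.2 (u d hd).symm)
        (zpowers_le.2 (mem_centralizer_singleton_iff.2 v.symm))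
    exact (mem_centralizer_singleton_iff.1 (this (hf ▸ mem_top b))).symm
  have D : ∀ d ∈ commutator G, ∀ b, Commute (π d) (π b) := fun d hd =>
    t d (fun e he => (k _ _).1 (h2 (commutator_mem_commutator hd he))) ((k _ _).1 (h1 d hd))
  exact commutator_le.2 fun a _ b _ => (k _ _).2 (t a (fun d hd => (D d hd a).symm)
    (t f (fun d hd => (D d hd f).symm) (.refl _) a).symm b)

lemma la (k : ℕ) : ∀ (G : Type) [Group G], ⁅commutator G, ⊤⁆ = commutator G →
    ⁅Subgroup.upperCentralSeries G k, commutator G⁆ = ⊥ := by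
  induction k with
  | zero => simp
  | succ k ih =>
    intro G _ h
    let π := QuotientGroup.mk' (center G)
    have s := map_top_of_surjective π (QuotientGroup.mk'_surjective _)
    have e : commutator (G ⧸ center G) = (commutator G).map π := by
      rw [_root_.commutator_def, _root_.commutator_def, map_commutator, s]
    have := ih (G ⧸ center G) (by rw [e, ← s, ← map_commutator, h])
    rw [← h, Subgroup.commutator_comm]
    refine commutator_commutator_eq_bot_of_rotate (le_bot_iff.1 ((commutator_mono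
      ((Subgroup.commutator_comm _ _).trans_le (Subgroup.commutator_upperCentralSeries_top_le G k)) le_rfl).trans_eq
        (ih G h))) (commutator_eq_bot_iff_le_centralizer.2 ?_)
    rw [coe_top, centralizer_univ, ← QuotientGroup.ker_mk' (center G), ← Subgroup.map_eq_bot_iff,
      map_commutator, ← e, ← le_bot_iff, ← this, ← Subgroup.comap_upperCentralSeries_quotient_center]
    exact commutator_mono (map_comap_le _ _) le_rfl

lemma lb [Finite G] {f : G} (hf : commutator G ⊔ zpowers f = ⊤)
    (h : ⁅commutator G, commutator G⁆ = ⊥) (k : ℕ) :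
    ∀ a ∈ commutator G, a ∈ Subgroup.upperCentralSeries G k → a = 1 := by
  have c : ∀ a ∈ commutator G, ∀ b ∈ commutator G, a * b = b * a := fun a ha b hb =>
    commutatorElement_eq_one_iff_mul_comm.1 (mem_bot.1 (h ▸ commutator_mem_commutator ha hb))
  have m : ∀ a b : G, ⁅a, b⁆ ∈ commutator G := fun a b =>
    commutator_mem_commutator (mem_top a) (mem_top b)
  let T : commutator G →* commutator G := .mk' (fun a => ⟨_, m a f⟩) fun a b => Subtype.ext (by
    change ⁅(a : G) * b, f⁆ = ⁅(a : G), f⁆ * ⁅(b : G), f⁆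
    rw [c _ (m _ _) _ (m _ _), ← mul_inv_cancel_right ⁅(b : G), f⁆ a, ← c _ a.2 _ (m _ _)]
    simp [commutatorElement_def, mul_assoc])
  let L := T.range.map (commutator G).subtype
  have : L.Normal := ⟨by
    rintro _ ⟨_, ⟨a, rfl⟩, rfl⟩ g
    have ha := (inferInstance : (commutator G).Normal).conj_mem _ a.2 g
    refine ⟨_, ⟨⟨_, ha⟩, rfl⟩, ?_⟩
    change ⁅g * a * g⁻¹, f⁆ = g * ⁅(a : G), f⁆ * g⁻¹
    rw [← mul_inv_cancel_right ⁅g * a * g⁻¹, f⁆ ⁅g, f⁆, ← c _ (m _ _) _ (m _ _),
      commutatorElement_def (g * a * g⁻¹), ← mul_assoc, ← mul_assoc, ← mul_assoc,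
      ← c _ ha _ (m _ _)]
    simp [commutatorElement_def, mul_assoc]⟩
  have S : Function.Surjective T := fun a => by
    obtain ⟨_, ⟨b, rfl⟩, e⟩ := lc hf L (fun d hd => ⟨_, ⟨⟨d, hd⟩, rfl⟩, rfl⟩) (h ▸ bot_le) a.2
    exact ⟨b, Subtype.ext e⟩
  induction k with
  | zero => simp
  | succ k ih =>
    intro a ha hk
    exact congrArg Subtype.val ((injective_iff_map_eq_one T).1
      (Finite.injective_iff_surjective.2 S) ⟨a, ha⟩
      (Subtype.ext (ih _ (m _ _) (Subgroup.mem_upperCentralSeries_succ_iff.1 hk f))))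

lemma grp [Finite G] {f : G} (hf : commutator G ⊔ zpowers f = ⊤) {H : Type} [Group H] [Finite H]
    (ψ : G →* H) {k : ℕ} (hk : ψ.ker ≤ Subgroup.upperCentralSeries G k) : Nat.card (commutator G) ≤
      (Finset.range (Nat.card (H × H) + 1)).sup cardCommutatorBound * Nat.card H := by
  have A := la k G (le_antisymm (commutator_le_left _ _) (lc hf _
    (fun d hd => commutator_mem_commutator hd (mem_top _)) (commutator_mono le_rfl le_top)))
  let D := commutator G
  let φ := ψ.comp D.subtype
  have z : ∀ x : D, φ x = 1 → ∀ y, Commute x y := fun x hx y => Subtype.ext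
    (commutatorElement_eq_one_iff_mul_comm.1 (mem_bot.1 (A ▸ commutator_mem_commutator (hk hx) y.2)))
  have K : φ.ker ≤ commutator D := fun x hx => by
    let π := QuotientGroup.mk' ⁅D, D⁆
    have s := QuotientGroup.mk'_surjective ⁅D, D⁆
    have e : commutator (G ⧸ ⁅D, D⁆) = D.map π := by
      rw [_root_.commutator_def, ← map_top_of_surjective π s, ← map_commutator]; rfl
    have := lb (f := π f) (by
      rw [e, ← MonoidHom.map_zpowers, ← Subgroup.map_sup, hf, map_top_of_surjective π s])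
      (by rw [e, ← map_commutator, Subgroup.map_eq_bot_iff, QuotientGroup.ker_mk']) k (π x)
      (e ▸ mem_map_of_mem π x.2) (Subgroup.upperCentralSeries.map s k (mem_map_of_mem π (hk hx)))
    have := (QuotientGroup.eq_one_iff _).1 this
    rw [← map_subtype_commutator] at this
    obtain ⟨y, hy, e⟩ := this
    rwa [← Subtype.ext e]
  have C : Nat.card (commutatorSet D) ≤ Nat.card (H × H) := by
    refine (Nat.card_mono (Set.toFinite _) ?_).trans (Finite.card_range_le
      fun p : H × H => ⁅Function.invFun φ p.1, Function.invFun φ p.2⁆)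
    rintro _ ⟨x, y, rfl⟩
    have w : ∀ x : D, ∃ c, Function.invFun φ (φ x) = c * x ∧ ∀ y, Commute c y := fun x =>
      ⟨_, (inv_mul_cancel_right _ x).symm, z _ (by
        rw [map_mul, Function.invFun_eq (f := φ) ⟨x, rfl⟩]; simp)⟩
    obtain ⟨a, ha, ha'⟩ := w x
    obtain ⟨b, hb, hb'⟩ := w y
    refine ⟨(φ x, φ y), ?_⟩
    simp only [ha, hb, commutatorElement_def]
    rw [(ha' x).eq, (hb' y).eq, mul_assoc x a, (ha' _).eq, mul_inv_rev, mul_inv_rev]
    simp only [mul_assoc, mul_inv_cancel_left]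
    rw [← mul_assoc b, (hb' _).eq]
    simp
  rw [← φ.ker.card_mul_index, index_ker]
  exact Nat.mul_le_mul ((card_le_of_le K).trans ((card_commutator_le_of_finite_commutatorSet D).trans
    (Finset.le_sup (Finset.mem_range.2 (Nat.lt_succ_of_le C))))) (card_le_card_group _)

lemma up {H : Type} [Group H] (θ : G →* H) (h : θ.ker ≤ center G) (k : ℕ) :
    ∀ x, θ x ∈ Subgroup.upperCentralSeries H k → x ∈ Subgroup.upperCentralSeries G (k + 1) := by
  induction k with
  | zero => exact fun x hx => Subgroup.upperCentralSeries_one G ▸ h hx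
  | succ k ih =>
    exact fun x hx y => ih _ (map_commutatorElement θ x y ▸ Subgroup.mem_upperCentralSeries_succ_iff.1 hx _)
end

lemma cj {X : Type} [Quandle X] (g : Inn X) (x : X) :
    Rack.act' (g.1 x) = g.1 * Rack.act' x * g.1⁻¹ := by
  obtain ⟨g, hg⟩ := g
  induction hg using closure_induction generalizing x with
  | mem g h => obtain ⟨y, rfl⟩ := h; exact Rack.ad_conj y x
  | one => simp
  | mul a b _ _ ha hb => simp [ha, hb, mul_assoc]
  | inv a _ ha =>
    have : Rack.act' x = _ := (congrArg _ (a.apply_symm_apply x)).symm.trans (ha (a.symm x))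
    simp [this, mul_assoc]

lemma step {X Y : Type} [Quandle X] [Quandle Y] (p : X → Y) (s : p.Surjective)
    (h : ∀ x y, p (x ◃ y) = p x ◃ p y) (c : ∀ x y, p x = p y → Rack.act' x = Rack.act' y) :
    ∃ θ : Inn X →* Inn Y, θ.ker ≤ center _ := by
  have : ∀ g : Inn X, ∃ k : Inn Y, ∀ x, p (g.1 x) = k.1 (p x) := fun ⟨g, hg⟩ => by
    induction hg using closure_induction with
    | mem g h' => obtain ⟨y, rfl⟩ := h'; exact ⟨⟨_, subset_closure ⟨p y, rfl⟩⟩, h y⟩
    | one => exact ⟨1, fun _ => rfl⟩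
    | mul a b _ _ ha hb =>
      obtain ⟨u, hu⟩ := ha
      obtain ⟨v, hv⟩ := hb
      exact ⟨u * v, fun x => (hu _).trans (congrArg _ (hv x))⟩
    | inv a _ ha =>
      obtain ⟨u, hu⟩ := ha
      exact ⟨u⁻¹, fun x => (Equiv.Perm.eq_inv_iff_eq).2 ((hu _).symm.trans (by simp))⟩
  choose θ H using this
  refine ⟨.mk' θ fun a b => Subtype.ext (Equiv.ext (s.forall.2 fun x => (H _ x).symm.trans
    ((H a _).trans (congrArg _ (H b x))))), fun g (hg : θ g = 1) => mem_center_iff.2 fun k => ?_⟩
  have : Inn X ≤ centralizer {g.1} := (closure_le _).2 <| Set.range_subset_iff.2 fun x =>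
    mem_centralizer_singleton_iff.2 (by
      rw [eq_comm, ← mul_inv_eq_iff_eq_mul, ← cj]
      exact c _ _ (by rw [H, hg]; rfl))
  exact Subtype.ext (mem_centralizer_singleton_iff.1 (this k.2))

theorem result (Q A : ℕ → Type) [∀ n, Quandle (Q n)] [∀ n, Finite (Q n)] [∀ n, Nonempty (Q n)]
    [∀ n, AddCommGroup (A n)] [∀ n, Nontrivial (A n)]
    (conn : ∀ n (x y : Q n), ∃ g ∈ Inn (Q n), g x = y) (φ : ∀ n, Q n → Q n → A n)
    (e : ∀ n, Q (n + 1) ≃ Q n × A n) :
    ¬ ∀ n x y, e n (y ◃ x) = ((e n y).1 ◃ (e n x).1, (e n x).2 + φ n (e n x).1 (e n y).1) := by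
  intro h
  have P : ∀ n, ∃ ψ : Inn (Q n) →* Inn (Q 0), ψ.ker ≤ Subgroup.upperCentralSeries _ n := fun n => by
    induction n with
    | zero => exact ⟨.id _, by simp⟩
    | succ n ih =>
      obtain ⟨ψ, hψ⟩ := ih
      obtain ⟨θ, hθ⟩ := step (fun x => (e n x).1) (Prod.fst_surjective.comp (e n).surjective)
        (fun x y => by rw [h]) fun x y c => Equiv.ext fun z => (e n).injective (by
          simp only [Rack.act'_apply, h, c])
      exact ⟨ψ.comp θ, fun x hx => up θ hθ n x (hψ hx)⟩
  have M : StrictMono fun n => Nat.card (Q n) := strictMono_nat_of_lt_succ fun n => by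
    have : Finite (A n) := .of_surjective _ (Prod.snd_surjective.comp (e n).surjective)
    rw [Nat.card_congr (e n), Nat.card_prod]
    exact lt_mul_of_one_lt_right Nat.card_pos Finite.one_lt_card
  obtain ⟨n, hn⟩ := (M.tendsto_atTop.eventually_gt_atTop ((Finset.range (Nat.card
    (Inn (Q 0) × Inn (Q 0)) + 1)).sup cardCommutatorBound * Nat.card (Inn (Q 0)))).exists
  obtain ⟨ψ, hψ⟩ := P n
  obtain ⟨x⟩ : Nonempty (Q n) := inferInstance
  let f : Inn (Q n) := ⟨_, subset_closure ⟨x, rfl⟩⟩
  have hf : commutator _ ⊔ zpowers f = ⊤ := by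
    refine eq_top_iff.2 (closure_closure_coe_preimage.ge.trans ((closure_le _).2 ?_))
    rintro g ⟨y, hy⟩
    obtain ⟨k, hk, rfl⟩ := conn n x y
    have : g = ⁅(⟨k, hk⟩ : Inn (Q n)), f⁆ * f :=
      Subtype.ext (by simp [← hy, cj ⟨k, hk⟩, commutatorElement_def, f])
    exact this ▸ mul_mem_sup (commutator_mem_commutator (mem_top _) (mem_top _)) (mem_zpowers f)
  refine hn.not_ge (le_trans (Nat.card_le_card_of_surjective
    (fun d : commutator (Inn (Q n)) => d.1.1 x) fun y => ?_) (grp hf ψ hψ))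
  obtain ⟨k, hk, rfl⟩ := conn n x y
  obtain ⟨d, hd, z, hz, hh⟩ := mem_sup_of_normal_left.1 (hf ▸ mem_top (⟨k, hk⟩ : Inn (Q n)))
  have : zpowers f ≤ MulAction.stabilizer _ x := zpowers_le.2 Quandle.fix
  exact ⟨⟨d, hd⟩, (congrArg d.1 (this hz).symm).trans (congrArg (fun g => g.1 x) hh)⟩

end Pool.Agent.Results.MP_caf75b_al.NoTower
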